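import Pool.Agent.K3h48.QG.Defs

/-!
# The states of a C*-algebra form a convex set
-/

set_option autoImplicit false

open Filter Topology Set CStarAlgebra
open scoped ComplexOrder InnerProductSpace

namespace Pool.Agent.K3h49.QG

section order

variable {A : Type*} [NonUnitalCStarAlgebra A] [PartialOrder A] [StarOrderedRing A]

/-- the positive linear map of a positive functional -/
noncomputable def pos (μ : A →L[ℂ] ℂ) (h : ∀ a : A, 0 ≤ μ (star a * a)) : A →ₚ[ℂ] ℂ :=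
  PositiveLinearMap.mk₀ μ.toLinearMap fun a ha => by
    obtain ⟨b, rfl⟩ := CStarAlgebra.nonneg_iff_eq_star_mul_self.mp ha
    exact h b

theorem pos_apply (μ : A →L[ℂ] ℂ) (h : ∀ a : A, 0 ≤ μ (star a * a)) (a : A) :
    pos μ h a = μ a := rfl

theorem sq_le {e : A} (he : 0 ≤ e) (h1 : ‖e‖ ≤ 1) : e * e ≤ e := by
  obtain ⟨b, hb⟩ := CStarAlgebra.nonneg_iff_eq_star_mul_self.mp he
  have h2 : star b * (b * star b) * b ≤ ‖b * star b‖ • (star b * b) :=
    CStarAlgebra.star_left_conjugate_le_norm_smul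
  have h3 : ‖b * star b‖ = ‖e‖ := by
    rw [hb, CStarRing.norm_star_mul_self, CStarRing.norm_self_mul_star]
  have h4 : star b * (b * star b) * b = e * e := by
    rw [hb]; simp only [mul_assoc]
  rw [h3, h4, ← hb] at h2
  refine h2.trans ?_
  have h5 : (‖e‖ : ℝ) • e ≤ (1 : ℝ) • e := smul_le_smul_of_nonneg_right h1 he
  rwa [one_smul] at h5

theorem re_mono (μ : A →L[ℂ] ℂ) (h : ∀ a : A, 0 ≤ μ (star a * a)) {a b : A} (hab : a ≤ b) :
    (μ a).re ≤ (μ b).re := by
  have h1 : pos μ h a ≤ pos μ h b := OrderHomClass.mono (pos μ h) hab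
  exact (Complex.le_def.1 h1).1

theorem cauchy (μ : A →L[ℂ] ℂ) (h : ∀ a : A, 0 ≤ μ (star a * a)) (a b : A) :
    ‖μ (star a * b)‖ ^ 2 ≤ (μ (star a * a)).re * (μ (star b * b)).re := by
  have h1 := norm_inner_le_norm (𝕜 := ℂ) ((pos μ h).toPreGNS a) ((pos μ h).toPreGNS b)
  rw [PositiveLinearMap.preGNS_inner_def] at h1
  have h2 := PositiveLinearMap.preGNS_norm_def (pos μ h) ((pos μ h).toPreGNS a)
  have h3 := PositiveLinearMap.preGNS_norm_def (pos μ h) ((pos μ h).toPreGNS b)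
  simp only [PositiveLinearMap.ofPreGNS_toPreGNS, pos_apply] at h1 h2 h3
  have ha : 0 ≤ (μ (star a * a)).re := (Complex.le_def.1 (h a)).1
  have hb : 0 ≤ (μ (star b * b)).re := (Complex.le_def.1 (h b)).1
  calc ‖μ (star a * b)‖ ^ 2 ≤ (√(μ (star a * a)).re * √(μ (star b * b)).re) ^ 2 := by
        rw [h2, h3] at h1
        exact pow_le_pow_left₀ (norm_nonneg _) h1 2
    _ = _ := by rw [mul_pow, Real.sq_sqrt ha, Real.sq_sqrt hb]

theorem key (μ : A →L[ℂ] ℂ) (h : ∀ a : A, 0 ≤ μ (star a * a)) {c : ℝ} (hc : c < ‖μ‖) :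
    ∀ᶠ e in approximateUnit A, c ≤ (μ e).re := by
  have hl := increasingApproximateUnit A
  rcases lt_or_ge c 0 with hc0 | hc0
  · filter_upwards [hl.eventually_nonneg] with e he
    have h1 := re_mono μ h he
    rw [map_zero, Complex.zero_re] at h1
    exact hc0.le.trans h1
  · have hμ : 0 < ‖μ‖ := hc0.trans_lt hc
    have hr : √(c * ‖μ‖) < ‖μ‖ := by
      rw [Real.sqrt_lt' hμ, pow_two]
      exact mul_lt_mul_of_pos_right hc hμ
    obtain ⟨a, ha1, ha2⟩ := μ.exists_lt_apply_of_lt_opNorm hr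
    have h1 : Tendsto (fun e => ‖μ (e * a)‖) (approximateUnit A) (𝓝 ‖μ a‖) :=
      ((μ.continuous.tendsto a).comp (hl.tendsto_mul_right a)).norm
    filter_upwards [h1.eventually (lt_mem_nhds ha2), hl.eventually_nonneg, hl.eventually_norm]
      with e he1 he2 he3
    have h2 := cauchy μ h e a
    rw [(IsSelfAdjoint.of_nonneg he2).star_eq] at h2
    have h3 : (μ (star a * a)).re ≤ ‖μ‖ := by
      calc (μ (star a * a)).re ≤ ‖μ (star a * a)‖ := Complex.re_le_norm _
        _ ≤ ‖μ‖ * ‖star a * a‖ := μ.le_opNorm _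
        _ ≤ ‖μ‖ * 1 := by
            refine mul_le_mul_of_nonneg_left ?_ hμ.le
            rw [CStarRing.norm_star_mul_self]
            exact mul_le_one₀ ha1.le (norm_nonneg _) ha1.le
        _ = ‖μ‖ := mul_one _
    have h4 : (μ (e * e)).re ≤ (μ e).re := re_mono μ h (sq_le he2 he3)
    have h5 : 0 ≤ (μ e).re := by
      have := re_mono μ h he2
      rwa [map_zero, Complex.zero_re] at this
    have h6 : c * ‖μ‖ ≤ (μ e).re * ‖μ‖ := by
      calc c * ‖μ‖ = √(c * ‖μ‖) ^ 2 := (Real.sq_sqrt (mul_nonneg hc0 hμ.le)).symm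
        _ ≤ ‖μ (e * a)‖ ^ 2 := pow_le_pow_left₀ (Real.sqrt_nonneg _) he1.le 2
        _ ≤ (μ (e * e)).re * (μ (star a * a)).re := h2
        _ ≤ (μ e).re * (μ (star a * a)).re :=
            mul_le_mul_of_nonneg_right h4 (Complex.le_def.1 (h a)).1
        _ ≤ (μ e).re * ‖μ‖ := mul_le_mul_of_nonneg_left h3 h5
    exact le_of_mul_le_mul_right h6 hμ

theorem convex_aux : Convex ℝ {μ : A →L[ℂ] ℂ | Pool.Agent.K3h48.QG.IsState μ} := by
  rintro μ ⟨hμ, hμ1⟩ ν ⟨hν, hν1⟩ s t hs ht hst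
  have hap : ∀ a : A, (s • μ + t • ν) a = (s : ℂ) * μ a + (t : ℂ) * ν a := fun a => by
    simp [Complex.real_smul]
  refine ⟨fun a => ?_, le_antisymm ?_ ?_⟩
  · rw [hap]
    have h1 : (0 : ℂ) ≤ (s : ℂ) := by exact_mod_cast hs
    have h2 : (0 : ℂ) ≤ (t : ℂ) := by exact_mod_cast ht
    exact add_nonneg (mul_nonneg h1 (hμ a)) (mul_nonneg h2 (hν a))
  · calc ‖s • μ + t • ν‖ ≤ ‖s • μ‖ + ‖t • ν‖ := norm_add_le _ _
      _ = s * 1 + t * 1 := by
          rw [norm_smul, norm_smul, hμ1, hν1, Real.norm_of_nonneg hs, Real.norm_of_nonneg ht]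
      _ = 1 := by rw [mul_one, mul_one, hst]
  · refine le_of_forall_lt fun c hc => ?_
    obtain ⟨c', hc1, hc2⟩ := exists_between hc
    have h1 := key μ hμ (c := c') (by rw [hμ1]; exact hc2)
    have h2 := key ν hν (c := c') (by rw [hν1]; exact hc2)
    obtain ⟨e, he1, he2, he3⟩ := (h1.and (h2.and
      (increasingApproximateUnit A).eventually_norm)).exists
    refine hc1.trans_le ?_
    calc c' = s * c' + t * c' := by rw [← add_mul, hst, one_mul]
      _ ≤ s * (μ e).re + t * (ν e).re :=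
          add_le_add (mul_le_mul_of_nonneg_left he1 hs) (mul_le_mul_of_nonneg_left he2 ht)
      _ = ((s • μ + t • ν) e).re := by
          rw [hap]
          simp
      _ ≤ ‖(s • μ + t • ν) e‖ := Complex.re_le_norm _
      _ ≤ ‖s • μ + t • ν‖ * ‖e‖ := ContinuousLinearMap.le_opNorm _ _
      _ ≤ ‖s • μ + t • ν‖ * 1 := mul_le_mul_of_nonneg_left he3 (norm_nonneg _)
      _ = ‖s • μ + t • ν‖ := mul_one _

end order

/-- The states of a C*-algebra form a convex set. -/
theorem t_CONVEX {A : Type*} [NonUnitalCStarAlgebra A] :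
    Convex ℝ {μ : A →L[ℂ] ℂ | Pool.Agent.K3h48.QG.IsState μ} := by
  let _ := CStarAlgebra.spectralOrder A
  let _ := CStarAlgebra.spectralOrderedRing A
  exact convex_aux

end Pool.Agent.K3h49.QG
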